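import Pool.Agent.H.MP_0896da_co.Defs

namespace Pool.Agent.H.MP_0896da_co

open Finset Nat

def V (n : ℕ) : Finset ℕ :=
  (Finset.univ : Finset (Nat.Partition n)).image
    (fun p : Nat.Partition n => (p.parts.map Nat.factorial).prod)

lemma prod_filter (m : Multiset ℕ) :
    ((m.filter (· ≠ 0)).map Nat.factorial).prod = (m.map Nat.factorial).prod := by
  induction m using Multiset.induction_on with
  | empty => simp
  | cons a m ih =>
    by_cases h : a = 0
    · subst h; simpa using ih
    · rw [Multiset.filter_cons_of_pos _ (by simpa using h)]; simp only [Multiset.map_cons, Multiset.prod_cons, ih]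

lemma mem_V {n v : ℕ} : v ∈ V n ↔ ∃ m : Multiset ℕ, m.sum = n ∧ (m.map Nat.factorial).prod = v := by
  constructor
  · intro h
    obtain ⟨p, -, hp⟩ := mem_image.1 h
    exact ⟨p.parts, p.parts_sum, hp⟩
  · rintro ⟨m, h1, h2⟩
    exact mem_image.2 ⟨Nat.Partition.ofSums n m h1, mem_univ _, by
      rw [← h2, ← prod_filter m]; rfl⟩

lemma V_mul {a b u v : ℕ} (hu : u ∈ V a) (hv : v ∈ V b) : u * v ∈ V (a + b) := by
  obtain ⟨m, h1, h2⟩ := mem_V.1 hu
  obtain ⟨k, h3, h4⟩ := mem_V.1 hv
  exact mem_V.2 ⟨m + k, by simp [h1, h3], by simp [h2, h4]⟩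

lemma V_fact (a : ℕ) : a ! ∈ V a := mem_V.2 ⟨{a}, by simp, by simp⟩

lemma V_succ {a u : ℕ} (hu : u ∈ V a) : u ∈ V (a + 1) := by
  simpa using V_mul hu (V_fact 1)

lemma V_mono {a b u : ℕ} (h : a ≤ b) (hu : u ∈ V a) : u ∈ V b := by
  induction h with
  | refl => exact hu
  | step _ ih => exact V_succ ih

lemma V_dvd {n v : ℕ} (h : v ∈ V n) : v ∣ n ! := by
  obtain ⟨m, rfl, rfl⟩ := mem_V.1 h
  clear h
  induction m using Multiset.induction_on with
  | empty => simp
  | cons a m ih =>
    simp only [Multiset.map_cons, Multiset.prod_cons, Multiset.sum_cons]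
    exact (Nat.mul_dvd_mul_left _ ih).trans (factorial_mul_factorial_dvd_factorial_add _ _)

lemma Mset_eq (n : ℕ) : Mset n = (V n).image (fun v => n ! / v) := by
  rw [V, image_image]; rfl

lemma div_inj {n u v : ℕ} (hu : u ∈ V n) (hv : v ∈ V n) (h : n ! / u = n ! / v) : u = v :=
  (Nat.div_eq_iff_eq_of_dvd_dvd (factorial_ne_zero n) (V_dvd hu) (V_dvd hv)).1 h

lemma card_Mset (n : ℕ) : (Mset n).card = (V n).card := by
  rw [Mset_eq]; exact card_image_of_injOn fun u hu v hv h => div_inj hu hv h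

lemma mem_Mset {n v : ℕ} (h : v ∈ V n) : n ! / v ∈ Mset n := by
  rw [Mset_eq]; exact mem_image_of_mem _ h

def N (k : ℕ) : Finset ℕ := (V k).filter (fun u => ∀ j < k, u ∉ V j)

lemma sum_N (n : ℕ) : ∑ k ∈ range (n + 1), (N k).card ≤ (V n).card := by
  rw [← card_biUnion]
  · refine card_le_card fun u hu => ?_
    obtain ⟨k, hk, hu⟩ := mem_biUnion.1 hu
    exact V_mono (by have := mem_range.1 hk; omega) (mem_filter.1 hu).1
  · intro a _ b _ hab
    refine disjoint_left.2 fun u ha hb => ?_
    rcases lt_or_gt_of_ne hab with h | h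
    · exact (mem_filter.1 hb).2 a h (mem_filter.1 ha).1
    · exact (mem_filter.1 ha).2 b h (mem_filter.1 hb).1

lemma V_double (n : ℕ) : (V (n + 1)).card ≤ 2 * (V n).card := by
  have h : V (n + 1) ⊆ V n ∪ (range (n + 1)).biUnion
      (fun k => (N k).image (fun u => u * (n + 1 - k)!)) := by
    intro v hv
    by_cases hn : v ∈ V n
    · exact mem_union_left _ hn
    refine mem_union_right _ ?_
    obtain ⟨m, h1, h2⟩ := mem_V.1 hv
    obtain ⟨s, hs, hs0⟩ : ∃ s ∈ m, s ≠ 0 := by
      by_contra hc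
      push Not at hc
      have := Multiset.sum_eq_zero hc
      omega
    obtain ⟨m', rfl⟩ := Multiset.exists_cons_of_mem hs
    simp only [Multiset.map_cons, Multiset.prod_cons, Multiset.sum_cons] at h1 h2
    have hu : (m'.map Nat.factorial).prod ∈ V m'.sum := mem_V.2 ⟨m', rfl, rfl⟩
    refine mem_biUnion.2 ⟨m'.sum, mem_range.2 (by omega), mem_image.2 ⟨_, mem_filter.2 ⟨hu, ?_⟩, ?_⟩⟩
    · intro j hj hjv
      have := V_mul hjv (V_fact s)
      rw [mul_comm, h2] at this
      exact hn (V_mono (by omega) this)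
    · rw [show n + 1 - m'.sum = s by omega, mul_comm, h2]
  have h2 := (card_le_card h).trans (card_union_le _ _)
  have h3 : ((range (n + 1)).biUnion (fun k => (N k).image (fun u => u * (n + 1 - k)!))).card
      ≤ ∑ k ∈ range (n + 1), (N k).card :=
    card_biUnion_le.trans (sum_le_sum fun k _ => card_image_le)
  have := sum_N n
  omega

lemma V_five (k : ℕ) : (V (k + 5)).card ≤ 32 * (V k).card := by
  have a := V_double k
  have b := V_double (k + 1)
  have c := V_double (k + 2)
  have d := V_double (k + 3)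
  have e := V_double (k + 4)
  simp only [add_assoc, Nat.reduceAdd] at *
  omega

lemma V12 : 12 ∈ V 5 := mem_V.2 ⟨{3, 2}, by simp, by simp [factorial]⟩
lemma V6 : 6 ∈ V 5 := mem_V.2 ⟨{3, 1, 1}, by simp, by simp [factorial]⟩
lemma V4 : 4 ∈ V 5 := mem_V.2 ⟨{2, 2, 1}, by simp, by simp [factorial]⟩

/-- the three-term progression attached to u -/
lemma triple {k u : ℕ} (hu : u ∈ V k) : ∃ x, 0 < x ∧ (k + 5)! = x * (u * 12) ∧ x ∈ Mset (k + 5) ∧
    2 * x ∈ Mset (k + 5) ∧ 3 * x ∈ Mset (k + 5) := by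
  obtain ⟨x, hx⟩ := V_dvd (V_mul hu V12)
  have hp := factorial_pos (k + 5)
  have hu0 : 0 < u := by
    rcases Nat.eq_zero_or_pos u with h | h
    · simp [h] at hx; omega
    · exact h
  refine ⟨x, ?_, by rw [hx, mul_comm], ?_, ?_, ?_⟩
  · rcases Nat.eq_zero_or_pos x with h | h
    · simp [h] at hx; omega
    · exact h
  · have := mem_Mset (V_mul hu V12)
    rwa [hx, Nat.mul_div_cancel_left _ (by positivity)] at this
  · have := mem_Mset (V_mul hu V6)
    rwa [hx, show u * 12 * x = u * 6 * (2 * x) by ring, Nat.mul_div_cancel_left _ (by positivity)] at this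
  · have := mem_Mset (V_mul hu V4)
    rwa [hx, show u * 12 * x = u * 4 * (3 * x) by ring, Nat.mul_div_cancel_left _ (by positivity)] at this

lemma sidon_bd (k : ℕ) (S : Finset ℕ) (hS : IsSidon S) :
    (V k).card ≤ 3 * (Mset (k + 5) \ S).card := by
  have h : V k ⊆ ((Mset (k + 5) \ S).image (fun x => (k + 5)! / (12 * x)) ∪
      (Mset (k + 5) \ S).image (fun x => (k + 5)! / (6 * x))) ∪
      (Mset (k + 5) \ S).image (fun x => (k + 5)! / (4 * x)) := by
    intro u hu
    obtain ⟨x, hx, he, h1, h2, h3⟩ := triple hu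
    by_cases a : x ∈ S
    · by_cases b : 2 * x ∈ S
      · by_cases c : 3 * x ∈ S
        · have := hS x a (3 * x) c (2 * x) b (2 * x) b (by ring)
          have h : x ∈ ({2 * x, 2 * x} : Finset ℕ) := this ▸ mem_insert_self _ _
          simp at h; omega
        · refine mem_union_right _ (mem_image.2 ⟨3 * x, mem_sdiff.2 ⟨h3, c⟩, ?_⟩)
          rw [he, show x * (u * 12) = 4 * (3 * x) * u by ring, Nat.mul_div_cancel_left _ (by positivity)]
      · refine mem_union_left _ (mem_union_right _ (mem_image.2 ⟨2 * x, mem_sdiff.2 ⟨h2, b⟩, ?_⟩))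
        rw [he, show x * (u * 12) = 6 * (2 * x) * u by ring, Nat.mul_div_cancel_left _ (by positivity)]
    · refine mem_union_left _ (mem_union_left _ (mem_image.2 ⟨x, mem_sdiff.2 ⟨h1, a⟩, ?_⟩))
      rw [he, show x * (u * 12) = 12 * x * u by ring, Nat.mul_div_cancel_left _ (by positivity)]
  have h1 := (card_le_card h).trans (card_union_le _ _)
  have h2 := card_union_le ((Mset (k + 5) \ S).image (fun x => (k + 5)! / (12 * x)))
    ((Mset (k + 5) \ S).image (fun x => (k + 5)! / (6 * x)))
  have a : ((Mset (k + 5) \ S).image (fun x => (k + 5)! / (12 * x))).card ≤ _ := card_image_le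
  have b : ((Mset (k + 5) \ S).image (fun x => (k + 5)! / (6 * x))).card ≤ _ := card_image_le
  have c : ((Mset (k + 5) \ S).image (fun x => (k + 5)! / (4 * x))).card ≤ _ := card_image_le
  omega

lemma D_bd (k : ℕ) : (V k).card ≤ Dn (k + 5) := by
  have h : V k ⊆ ((sums (k + 5)).filter (fun t : ℕ => 2 ≤ rep (k + 5) t)).image
      (fun t => (k + 5)! / (3 * t)) := by
    intro u hu
    obtain ⟨x, hx, he, h1, h2, h3⟩ := triple hu
    refine mem_image.2 ⟨4 * x, mem_filter.2 ⟨?_, ?_⟩, ?_⟩
    · exact mem_image.2 ⟨(x, 3 * x), mem_product.2 ⟨h1, h3⟩, by simp; ring⟩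
    · refine one_lt_card.2 ⟨(x, 3 * x), ?_, (2 * x, 2 * x), ?_, ?_⟩
      · exact mem_filter.2 ⟨mem_product.2 ⟨h1, h3⟩, by simp; omega, by simp; ring⟩
      · exact mem_filter.2 ⟨mem_product.2 ⟨h2, h2⟩, by simp, by simp; ring⟩
      · simp; omega
    · rw [he, show x * (u * 12) = 3 * (4 * x) * u by ring, Nat.mul_div_cancel_left _ (by positivity)]
  exact (card_le_card h).trans card_image_le

lemma D_le_C (n : ℕ) : Dn n ≤ Cn n := by
  unfold Dn Cn
  rw [card_filter]
  refine sum_le_sum fun t _ => ?_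
  split_ifs <;> omega

lemma V_pow {a u : ℕ} (hu : u ∈ V a) (j : ℕ) : u ^ j ∈ V (a * j) := by
  induction j with
  | zero => simpa using V_fact 0
  | succ j ih => rw [pow_succ, mul_add, mul_one]; exact V_mul ih hu

lemma V_cubic (k : ℕ) : (k + 1) ^ 3 ≤ (V (10 * k)).card := by
  have h : (range (k + 1) ×ˢ range (k + 1) ×ˢ range (k + 1)).card ≤ (V (10 * k)).card := by
    refine card_le_card_of_injOn (fun z => 2 ^ z.1 * 6 ^ z.2.1 * 120 ^ z.2.2) ?_ ?_
    · rintro ⟨a, b, c⟩ hz
      simp only [coe_product, coe_range, Set.mem_prod, Set.mem_Iio] at hz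
      have := V_mul (V_mul (V_pow (V_fact 2) a) (V_pow (V_fact 3) b)) (V_pow (V_fact 5) c)
      exact V_mono (by omega) this
    · rintro ⟨a, b, c⟩ - ⟨a', b', c'⟩ - hz
      have e : ∀ a b c : ℕ, 2 ^ a * 6 ^ b * 120 ^ c = 2 ^ (a + b + 3 * c) * 3 ^ (b + c) * 5 ^ c := by
        intro a b c
        rw [show (6 : ℕ) = 2 * 3 by norm_num, show (120 : ℕ) = 2 ^ 3 * 3 * 5 by norm_num]
        simp only [mul_pow, pow_add, pow_mul]; ring
      simp only [e] at hz
      have f := congrArg Nat.factorization hz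
      rw [Nat.factorization_mul (by positivity) (by positivity), Nat.factorization_mul (by positivity) (by positivity),
        Nat.factorization_mul (by positivity) (by positivity), Nat.factorization_mul (by positivity) (by positivity),
        Nat.prime_two.factorization_pow, Nat.prime_two.factorization_pow,
        Nat.prime_three.factorization_pow, Nat.prime_three.factorization_pow,
        Nat.prime_five.factorization_pow, Nat.prime_five.factorization_pow] at f
      have f2 := DFunLike.congr_fun f 2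
      have f3 := DFunLike.congr_fun f 3
      have f5 := DFunLike.congr_fun f 5
      simp at f2 f3 f5
      simp only [Prod.mk.injEq]; omega
  simp only [card_product, card_range] at h
  nlinarith

end Pool.Agent.H.MP_0896da_co
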