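import Pool.Agent.H.MP_0896da_co.A

namespace Pool.Agent.H.MP_0896da_co

open Finset Nat Filter

lemma D_cubic {n : ℕ} (hn : 10 ≤ n) : (n : ℝ) ^ 3 / 8000 ≤ Dn n := by
  obtain ⟨k, rfl⟩ : ∃ k, n = k + 5 := ⟨n - 5, by omega⟩
  have h1 := D_bd k
  have h2 := V_cubic (k / 10)
  have h3 : (V (10 * (k / 10))).card ≤ (V k).card :=
    card_le_card fun u hu => V_mono (by omega) hu
  have h4 : k + 5 ≤ 20 * (k / 10 + 1) := by omega
  have h5 : (k + 5) ^ 3 ≤ 8000 * Dn (k + 5) := by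
    calc (k + 5) ^ 3 ≤ (20 * (k / 10 + 1)) ^ 3 := Nat.pow_le_pow_left h4 3
      _ = 8000 * (k / 10 + 1) ^ 3 := by ring
      _ ≤ _ := by omega
  rw [div_le_iff₀ (by norm_num)]
  have : (((k + 5 : ℕ) : ℝ)) ^ 3 ≤ 8000 * Dn (k + 5) := by exact_mod_cast h5
  linarith

lemma log_le (x : ℝ) (hx : 0 < x) : Real.log x ≤ 2 * √x := by
  have h := Real.log_le_sub_one_of_pos (Real.sqrt_pos.2 hx)
  rw [Real.log_sqrt hx.le] at h
  linarith

lemma sqrt_tend (c : ℝ) (hc : 0 < c) : Tendsto (fun n : ℕ => √(n : ℝ) / c) atTop atTop :=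
  (Real.tendsto_sqrt_atTop.comp tendsto_natCast_atTop_atTop).atTop_div_const hc

lemma one_le_log {n : ℕ} (hn : 10 ≤ n) : 1 ≤ Real.log n := by
  rw [Real.le_log_iff_exp_le (by positivity)]
  have := Real.exp_one_lt_d9
  have : (10 : ℝ) ≤ n := by exact_mod_cast hn
  linarith

lemma D_low {n : ℕ} (hn : 10 ≤ n) : √(n : ℝ) / 16000 * ((n : ℝ) ^ 2 * Real.log n) ≤ Dn n := by
  have h0 : (0 : ℝ) < n := by positivity
  have h1 := log_le n h0
  have h2 : √(n : ℝ) * √(n : ℝ) = n := Real.mul_self_sqrt h0.le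
  have h3 := Real.sqrt_nonneg (n : ℝ)
  refine le_trans ?_ (D_cubic hn)
  calc √(n : ℝ) / 16000 * ((n : ℝ) ^ 2 * Real.log n)
      ≤ √(n : ℝ) / 16000 * ((n : ℝ) ^ 2 * (2 * √(n : ℝ))) := by gcongr
    _ = (√(n : ℝ) * √(n : ℝ)) * (n : ℝ) ^ 2 / 8000 := by ring
    _ = _ := by rw [h2]; ring

lemma C_tend : Tendsto (fun n : ℕ => (Cn n : ℝ) / ((n : ℝ) ^ 2 * Real.log n)) atTop atTop := by
  refine tendsto_atTop_mono' atTop ?_ (sqrt_tend 16000 (by norm_num))
  filter_upwards [eventually_ge_atTop 10] with n hn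
  have := one_le_log hn
  have h0 : (0 : ℝ) < n := by positivity
  rw [le_div_iff₀ (by positivity)]
  exact (D_low hn).trans (by exact_mod_cast D_le_C n)

lemma D_tend : Tendsto (fun n : ℕ => (Dn n : ℝ) / ((n : ℝ) ^ ((3 : ℝ) / 2) * √(Real.log n)))
    atTop atTop := by
  refine tendsto_atTop_mono' atTop ?_ (sqrt_tend 16000 (by norm_num))
  filter_upwards [eventually_ge_atTop 10] with n hn
  have h1 := one_le_log hn
  have h0 : (1 : ℝ) ≤ n := by exact_mod_cast (by omega : 1 ≤ n)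
  rw [le_div_iff₀ (by positivity)]
  refine le_trans ?_ (D_low hn)
  have a : (n : ℝ) ^ ((3 : ℝ) / 2) ≤ (n : ℝ) ^ 2 := by
    rw [← Real.rpow_two]; exact Real.rpow_le_rpow_of_exponent_le h0 (by norm_num)
  have b : √(Real.log n) ≤ Real.log n := by
    rw [Real.sqrt_le_left (by linarith)]; nlinarith
  gcongr

lemma base (y p : ℕ) (hp : 1 ≤ p) (hy : p ≤ y) :
    ∃ u ∈ V (∑ a ∈ range (y + 1), a), u * p = ∏ a ∈ range (y + 1), a ! := by
  have hm : p ∈ range (y + 1) := mem_range.2 (by omega)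
  have h1 : ∏ a ∈ (range (y + 1)).erase p, a ! ∈ V (∑ a ∈ (range (y + 1)).erase p, a) :=
    mem_V.2 ⟨((range (y + 1)).erase p).val, by simp [Finset.sum], rfl⟩
  obtain ⟨q, rfl⟩ : ∃ q, p = q + 1 := ⟨p - 1, by omega⟩
  refine ⟨(∏ a ∈ (range (y + 1)).erase (q + 1), a !) * q !, ?_, ?_⟩
  · have := V_succ (V_mul h1 (V_fact q))
    rwa [add_assoc, sum_erase_add _ _ hm] at this
  · rw [← prod_erase_mul _ _ hm, factorial_succ]; ring

lemma dil (n y : ℕ) (h : y * (y + 1) ≤ n) : ∃ d, 0 < d ∧ ∀ p q, 1 ≤ p → p ≤ y → 1 ≤ q → q ≤ y →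
    d * (p * q) ∈ Mset n := by
  have hs : (∑ a ∈ range (y + 1), a) + ∑ a ∈ range (y + 1), a ≤ n := by
    have := sum_range_id_mul_two (y + 1)
    simp only [Nat.add_sub_cancel] at this
    nlinarith
  have hB : ∏ a ∈ range (y + 1), a ! ∈ V (∑ a ∈ range (y + 1), a) :=
    mem_V.2 ⟨(range (y + 1)).val, by simp [Finset.sum], rfl⟩
  obtain ⟨d, hd⟩ := V_dvd (V_mono hs (V_mul hB hB))
  have hp := factorial_pos n
  refine ⟨d, ?_, fun p q p1 p2 q1 q2 => ?_⟩
  · rcases Nat.eq_zero_or_pos d with h | h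
    · simp [h] at hd; omega
    · exact h
  obtain ⟨u, hu, eu⟩ := base y p p1 p2
  obtain ⟨v, hv, ev⟩ := base y q q1 q2
  have h1 := V_mono hs (V_mul hu hv)
  have h2 := mem_Mset h1
  have h3 : 0 < u * v := Nat.pos_of_dvd_of_pos (V_dvd h1) hp
  rwa [hd, show (∏ a ∈ range (y + 1), a !) * (∏ a ∈ range (y + 1), a !) * d
    = (u * p) * (v * q) * d by rw [eu, ev], show (u * p) * (v * q) * d = u * v * (d * (p * q)) by ring,
    Nat.mul_div_cancel_left _ h3] at h2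

lemma mu_pig (n d L : ℕ) (hd : 0 < d) (A : Finset ℕ) (hA : ∀ a ∈ A, a ≤ L ∧ d * a ∈ Mset n) :
    A.card ^ 2 ≤ 2 * mu n * (2 * L + 1) := by
  have h1 := card_le_mul_card_image (f := fun z : ℕ × ℕ => z.1 + z.2) (A ×ˢ A) (2 * mu n) (by
    intro s hs
    obtain ⟨z, hz, rfl⟩ := mem_image.1 hs
    have hz' := mem_product.1 hz
    have hr : rep n (d * z.1 + d * z.2) ≤ mu n :=
      le_sup (f := rep n) (mem_image.2 ⟨(d * z.1, d * z.2),
        mem_product.2 ⟨(hA _ hz'.1).2, (hA _ hz'.2).2⟩, rfl⟩)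
    set R := (Mset n ×ˢ Mset n).filter
      (fun w : ℕ × ℕ => w.1 ≤ w.2 ∧ w.1 + w.2 = d * z.1 + d * z.2) with hR
    have hsub : ((A ×ˢ A).filter (fun w : ℕ × ℕ => w.1 + w.2 = z.1 + z.2)).card
        ≤ (R ∪ R.image Prod.swap).card := by
      refine card_le_card_of_injOn (fun w => (d * w.1, d * w.2)) ?_ ?_
      · intro w hw
        obtain ⟨w1, w2⟩ := mem_filter.1 (mem_coe.1 hw)
        have w3 := mem_product.1 w1
        have e : d * w.1 + d * w.2 = d * z.1 + d * z.2 := by rw [← mul_add, ← mul_add, w2]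
        rcases le_total (d * w.1) (d * w.2) with h | h
        · exact mem_coe.2 (mem_union_left _ (mem_filter.2
            ⟨mem_product.2 ⟨(hA _ w3.1).2, (hA _ w3.2).2⟩, h, e⟩))
        · exact mem_coe.2 (mem_union_right _ (mem_image.2 ⟨(d * w.2, d * w.1), mem_filter.2
            ⟨mem_product.2 ⟨(hA _ w3.2).2, (hA _ w3.1).2⟩, h, by rw [← e, add_comm]⟩, rfl⟩))
      · intro a _ b _ hab
        simp only [Prod.mk.injEq] at hab
        exact Prod.ext (Nat.eq_of_mul_eq_mul_left hd hab.1) (Nat.eq_of_mul_eq_mul_left hd hab.2)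
    have h2 := card_union_le R (R.image Prod.swap)
    have h3 : (R.image Prod.swap).card ≤ R.card := card_image_le
    have h4 : R.card = rep n (d * z.1 + d * z.2) := rfl
    omega)
  have h2 : ((A ×ˢ A).image (fun z : ℕ × ℕ => z.1 + z.2)).card ≤ 2 * L + 1 := by
    rw [← card_range (2 * L + 1)]
    refine card_le_card fun s hs => ?_
    obtain ⟨z, hz, rfl⟩ := mem_image.1 hs
    have hz' := mem_product.1 hz
    have := (hA _ hz'.1).1
    have := (hA _ hz'.2).1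
    exact mem_range.2 (by omega)
  rw [card_product, ← sq] at h1
  exact h1.trans (Nat.mul_le_mul_left _ h2)

lemma semi (P : Finset ℕ) (hP : ∀ p ∈ P, p.Prime) :
    P.card ^ 2 ≤ 2 * ((P ×ˢ P).image (fun z : ℕ × ℕ => z.1 * z.2)).card := by
  have h1 := card_le_mul_card_image (f := fun z : ℕ × ℕ => z.1 * z.2) (P ×ˢ P) 2 (by
    intro s hs
    obtain ⟨⟨p, q⟩, hz, rfl⟩ := mem_image.1 hs
    have hz' := mem_product.1 hz
    refine (card_le_card (t := {(p, q), (q, p)}) ?_).trans card_le_two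
    rintro ⟨a, b⟩ hw
    obtain ⟨w1, w2⟩ := mem_filter.1 hw
    have w3 := mem_product.1 w1
    simp only at w2 w3 hz'
    have ha := hP a w3.1
    have : a ∣ p * q := ⟨b, w2.symm⟩
    simp only [mem_insert, mem_singleton, Prod.mk.injEq]
    rcases (Nat.Prime.dvd_mul ha).1 this with h | h
    · have e := (Nat.prime_dvd_prime_iff_eq ha (hP p hz'.1)).1 h
      subst e
      exact Or.inl ⟨rfl, Nat.eq_of_mul_eq_mul_left ha.pos w2⟩
    · have e := (Nat.prime_dvd_prime_iff_eq ha (hP q hz'.2)).1 h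
      subst e
      exact Or.inr ⟨rfl, Nat.eq_of_mul_eq_mul_left ha.pos (by rw [w2, mul_comm])⟩)
  rwa [card_product, ← sq] at h1

lemma mu_pi (n y : ℕ) (h : y * (y + 1) ≤ n) :
    (Nat.primeCounting y) ^ 4 ≤ 8 * mu n * (2 * y ^ 2 + 1) := by
  obtain ⟨d, hd, H⟩ := dil n y h
  have hP : ∀ p ∈ primesLE y, p.Prime ∧ p ≤ y := fun p hp => by
    have := Nat.mem_primesLE.1 hp; tauto
  have h1 := semi (primesLE y) fun p hp => (hP p hp).1
  have h2 := mu_pig n d (y ^ 2) hd ((primesLE y ×ˢ primesLE y).image (fun z : ℕ × ℕ => z.1 * z.2)) (by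
    intro a ha
    obtain ⟨z, hz, rfl⟩ := mem_image.1 ha
    have hz' := mem_product.1 hz
    have a := hP _ hz'.1
    have b := hP _ hz'.2
    exact ⟨by rw [sq]; exact Nat.mul_le_mul a.2 b.2, H _ _ a.1.one_le a.2 b.1.one_le b.2⟩)
  rw [Nat.primesLE_card_eq_primeCounting] at h1
  nlinarith [Nat.pow_le_pow_left h1 2]

end Pool.Agent.H.MP_0896da_co
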