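import Pool.Agent.H.MP_0896da_co.B

namespace Pool.Agent.H.MP_0896da_co

open Finset Nat Filter

lemma pi_low {y : ℕ} (hy : 100 ≤ y) : (y : ℝ) / (4 * Real.log y) ≤ Nat.primeCounting y := by
  have h := Chebyshev.pi_ge y
  have h1 := one_le_log (n := y) (by omega)
  have h2 : (100 : ℝ) ≤ y := by exact_mod_cast hy
  have h3 := log_le (y + 1) (by positivity)
  have h4 : √((y : ℝ) + 1) ≤ y / 5 := by
    rw [Real.sqrt_le_left (by positivity)]; nlinarith
  have h5 := Real.log_two_gt_d9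
  refine le_trans ?_ h
  rw [div_le_div_iff₀ (by positivity) (by positivity)]
  have : (y : ℝ) ≤ (y * Real.log 2 - Real.log (y + 1)) * 4 := by nlinarith
  nlinarith

lemma mu_low {n y : ℕ} (hy : 100 ≤ y) (h : y * (y + 1) ≤ n) (h' : n ≤ 4 * y ^ 2) :
    √(y : ℝ) / 2457600000 * √((n : ℝ) * Real.log n) ≤ mu n := by
  have h1 := one_le_log (n := y) (by omega)
  have h2 : (100 : ℝ) ≤ y := by exact_mod_cast hy
  have h0 : (0 : ℝ) < y := by linarith
  set L := Real.log y with hL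
  have a1 : ((Nat.primeCounting y : ℝ)) ^ 4 ≤ 8 * mu n * (2 * y ^ 2 + 1) := by
    exact_mod_cast mu_pi n y h
  have a2 : ((y : ℝ) / (4 * L)) ^ 4 ≤ ((Nat.primeCounting y : ℝ)) ^ 4 :=
    pow_le_pow_left₀ (by positivity) (pi_low hy) 4
  have hm : (0 : ℝ) ≤ mu n := Nat.cast_nonneg _
  have a3 : ((y : ℝ) / (4 * L)) ^ 4 ≤ 24 * mu n * y ^ 2 := by
    have : 8 * (mu n : ℝ) * (2 * y ^ 2 + 1) ≤ 8 * mu n * (3 * y ^ 2) := by
      gcongr; nlinarith
    linarith
  have a4 : (y : ℝ) ^ 2 ≤ 6144 * L ^ 4 * mu n := by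
    rw [div_pow, div_le_iff₀ (by positivity)] at a3
    have : (y : ℝ) ^ 2 * y ^ 2 ≤ (6144 * L ^ 4 * mu n) * y ^ 2 := by nlinarith
    exact le_of_mul_le_mul_right this (by positivity)
  have hn : (n : ℝ) ≤ 4 * y ^ 2 := by exact_mod_cast h'
  have hn0 : (0 : ℝ) < n := by
    have : 0 < n := lt_of_lt_of_le (by positivity) h
    exact_mod_cast this
  have b1 : Real.log n ≤ 4 * L := by
    have : Real.log n ≤ Real.log ((y : ℝ) ^ 4) := Real.log_le_log hn0 (by
      have : (4 : ℝ) ≤ y ^ 2 := by nlinarith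
      calc (n : ℝ) ≤ 4 * y ^ 2 := hn
        _ ≤ y ^ 2 * y ^ 2 := by gcongr
        _ = _ := by ring)
    rw [Real.log_pow] at this; exact_mod_cast this
  have b0 : 0 ≤ Real.log n := Real.log_natCast_nonneg n
  have b2 : √((n : ℝ) * Real.log n) ≤ 4 * y * L := by
    rw [Real.sqrt_le_left (by positivity)]
    calc (n : ℝ) * Real.log n ≤ (4 * y ^ 2) * (4 * L) := by gcongr
      _ ≤ (4 * y ^ 2) * (4 * L ^ 2) := by gcongr; nlinarith
      _ = _ := by ring
  have c1 : L ≤ 10 * (y : ℝ) ^ ((1 : ℝ) / 10) := by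
    have := Real.log_le_rpow_div h0.le (ε := (1 : ℝ) / 10) (by norm_num)
    linarith
  have c2 : L ^ 5 ≤ 100000 * √(y : ℝ) := by
    have := pow_le_pow_left₀ (by linarith) c1 5
    rw [mul_pow, ← Real.rpow_natCast ((y : ℝ) ^ ((1 : ℝ) / 10)), ← Real.rpow_mul h0.le] at this
    rw [Real.sqrt_eq_rpow]
    norm_num at this ⊢
    linarith
  have s1 : √(y : ℝ) * √(y : ℝ) = y := Real.mul_self_sqrt h0.le
  have s0 := Real.sqrt_pos.2 h0
  have d : √(y : ℝ) / 2457600000 * (4 * y * L) * (6144 * L ^ 4) ≤ (y : ℝ) ^ 2 := by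
    calc √(y : ℝ) / 2457600000 * (4 * y * L) * (6144 * L ^ 4) = √(y : ℝ) * y * L ^ 5 / 100000 := by ring
      _ ≤ √(y : ℝ) * y * (100000 * √(y : ℝ)) / 100000 := by gcongr
      _ = (√(y : ℝ) * √(y : ℝ)) * y := by ring
      _ = _ := by rw [s1]; ring
  have e : √(y : ℝ) / 2457600000 * (4 * y * L) ≤ mu n := by
    refine le_of_mul_le_mul_right (a := 6144 * L ^ 4) ?_ (by positivity)
    linarith
  exact le_trans (by gcongr) e

lemma mu_tend : Tendsto (fun n : ℕ => (mu n : ℝ) / √((n : ℝ) * Real.log n)) atTop atTop := by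
  have ht : Tendsto (fun n : ℕ => Nat.sqrt n - 1) atTop atTop := by
    refine tendsto_atTop.2 fun b => ?_
    filter_upwards [eventually_ge_atTop ((b + 1) * (b + 1))] with n hn
    have := Nat.le_sqrt.2 hn
    omega
  refine tendsto_atTop_mono' atTop ?_ ((sqrt_tend 2457600000 (by norm_num)).comp ht)
  filter_upwards [eventually_ge_atTop (101 * 101)] with n hn
  have h1 := Nat.le_sqrt.2 hn
  have h2 := Nat.sqrt_le n
  have h3 := Nat.lt_succ_sqrt n
  obtain ⟨y, hy⟩ : ∃ y, Nat.sqrt n = y + 1 := ⟨Nat.sqrt n - 1, by omega⟩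
  have h4 := one_le_log (n := n) (by omega)
  have h0 : (0 : ℝ) < n := by positivity
  simp only [Function.comp, hy, Nat.add_sub_cancel]
  rw [hy] at h1 h2 h3
  rw [le_div_iff₀ (by positivity)]
  exact mu_low (by omega) (by nlinarith) (by simp only [Nat.succ_eq_add_one] at h3; nlinarith)

end Pool.Agent.H.MP_0896da_co
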