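import Mathlib

namespace Pool.Agent.H.MP_0896da_co

/-- the set of distinct multinomial coefficients with upper entry n -/
def Mset (n : ℕ) : Finset ℕ :=
  (Finset.univ : Finset (Nat.Partition n)).image
    (fun p : Nat.Partition n => n.factorial / (p.parts.map Nat.factorial).prod)

/-- Sidon sets -/
def IsSidon (S : Finset ℕ) : Prop :=
  ∀ x ∈ S, ∀ y ∈ S, ∀ u ∈ S, ∀ v ∈ S, x + y = u + v → ({x, y} : Finset ℕ) = {u, v}

open Classical in
/-- largest size of a Sidon subset of Mset n -/
noncomputable def smax (n : ℕ) : ℕ := ((Mset n).powerset.filter IsSidon).sup Finset.card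

/-- unordered representations of t as a sum of two elements of Mset n -/
def rep (n t : ℕ) : ℕ :=
  ((Mset n ×ˢ Mset n).filter (fun z : ℕ × ℕ => z.1 ≤ z.2 ∧ z.1 + z.2 = t)).card

/-- the sumset, outside which rep vanishes -/
def sums (n : ℕ) : Finset ℕ := (Mset n ×ˢ Mset n).image (fun z : ℕ × ℕ => z.1 + z.2)

def Cn (n : ℕ) : ℕ := ∑ t ∈ sums n, (rep n t - 1)

def Dn (n : ℕ) : ℕ := ((sums n).filter (fun t : ℕ => 2 ≤ rep n t)).card

def mu (n : ℕ) : ℕ := (sums n).sup (rep n)

end Pool.Agent.H.MP_0896da_co
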